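import Pool.Agent.helper23.CO.SpecB

/-! # Project co (MP_7c3fb3_pr), row LIP: shifting a slab -/

set_option autoImplicit false

open Finset Filter Topology

namespace CO

open CU

lemma LIP_fib {d n : ℕ} [NeZero n] (hd : 0 < d) (u : ZMod n) :
    (univ.filter fun x : Site d n => x ⟨0, hd⟩ = u).card =
      (univ.filter fun x : Site d n => x ⟨0, hd⟩ = 0).card := by
  classical
  refine Finset.card_bij' (fun x _ => x - Pi.single ⟨0, hd⟩ u) (fun x _ => x + Pi.single ⟨0, hd⟩ u)
    ?_ ?_ ?_ ?_
  · intro x hx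
    simp only [mem_filter, mem_univ, true_and] at hx ⊢
    rw [Pi.sub_apply, Pi.single_eq_same, hx, sub_self]
  · intro x hx
    simp only [mem_filter, mem_univ, true_and] at hx ⊢
    rw [Pi.add_apply, Pi.single_eq_same, hx, zero_add]
  · intro x _
    exact sub_add_cancel _ _
  · intro x _
    exact add_sub_cancel_right _ _

lemma LIP_fpos {d n : ℕ} [NeZero n] (hd : 0 < d) :
    0 < (univ.filter fun x : Site d n => x ⟨0, hd⟩ = 0).card :=
  Finset.card_pos.2 ⟨0, by simp⟩

/-- the sum over the slab is the sum of the sums over the hyperplanes -/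
lemma LIP_sum {d n : ℕ} [NeZero n] (hd : 0 < d) (I : Finset (ZMod n)) (f : Site d n → ℝ) :
    ∑ x ∈ slab hd I, f x = ∑ u ∈ I, ∑ x ∈ univ.filter (fun x : Site d n => x ⟨0, hd⟩ = u), f x := by
  classical
  rw [← Finset.sum_fiberwise_of_maps_to (s := slab hd I) (t := I) (g := fun x => x ⟨0, hd⟩)
    (fun x hx => (Finset.mem_filter.1 hx).2)]
  refine Finset.sum_congr rfl fun u hu => Finset.sum_congr ?_ fun _ _ => rfl
  ext x
  simp only [slab, mem_filter, mem_univ, true_and]
  constructor
  · exact fun h => h.2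
  · exact fun h => ⟨h ▸ hu, h⟩

lemma LIP_card {d n : ℕ} [NeZero n] (hd : 0 < d) (I : Finset (ZMod n)) :
    ((slab (d := d) hd I).card : ℝ) = (I.card : ℝ) * ((univ.filter fun x : Site d n => x ⟨0, hd⟩ = 0).card : ℝ) := by
  have h := LIP_sum (d := d) hd I (fun _ => (1 : ℝ))
  simp only [Finset.sum_const, nsmul_eq_mul, mul_one] at h
  rw [h]
  rw [Finset.sum_congr rfl fun u _ => by rw [LIP_fib hd u], Finset.sum_const, nsmul_eq_mul]

lemma LIP_sg (b : Bool) : |sg b| ≤ 1 := by
  cases b <;> simp [sg]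

lemma LIP_S {d n : ℕ} [NeZero n] (hd : 0 < d) (u : ZMod n) (σ : Conf d n) :
    |∑ x ∈ univ.filter (fun x : Site d n => x ⟨0, hd⟩ = u), sg (σ x)| ≤
      ((univ.filter fun x : Site d n => x ⟨0, hd⟩ = 0).card : ℝ) := by
  refine (Finset.abs_sum_le_sum_abs _ _).trans ?_
  refine (Finset.sum_le_sum fun x _ => LIP_sg (σ x)).trans ?_
  rw [Finset.sum_const, nsmul_eq_mul, mul_one, LIP_fib hd u]

lemma LIP_bd {n : ℕ} [NeZero n] (I : Finset (ZMod n)) :
    ((I.image fun u => u + 1) \ I).card = bdI I ∧ (I \ (I.image fun u => u + 1)).card = bdI I := by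
  classical
  have hinj : Function.Injective (fun u : ZMod n => u + 1) := add_left_injective 1
  have h1 : ((I.image fun u => u + 1) \ I).card = bdI I := by
    have e : (I.image fun u => u + 1) \ I = (I.filter fun u => u + 1 ∉ I).image (fun u => u + 1) := by
      ext v
      simp only [Finset.mem_sdiff, Finset.mem_image, Finset.mem_filter]
      constructor
      · rintro ⟨⟨u, hu, rfl⟩, hv⟩
        exact ⟨u, ⟨hu, hv⟩, rfl⟩
      · rintro ⟨u, ⟨hu, hv⟩, rfl⟩
        exact ⟨⟨u, hu, rfl⟩, hv⟩
    rw [e, Finset.card_image_of_injective _ hinj]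
    rfl
  refine ⟨h1, ?_⟩
  rw [← h1]
  have hc : (I.image fun u => u + 1).card = I.card := Finset.card_image_of_injective _ hinj
  have e1 := Finset.card_sdiff_add_card_inter (I.image fun u => u + 1) I
  have e2 := Finset.card_sdiff_add_card_inter I (I.image fun u => u + 1)
  rw [Finset.inter_comm] at e2
  omega

lemma LIP_step {d n : ℕ} [NeZero n] (hd : 0 < d) (I : Finset (ZMod n)) (σ : Conf d n) (hI : I.Nonempty) :
    |mI hd (I.image fun u => u + 1) σ - mI hd I σ| ≤ 2 * bdI I / I.card := by
  classical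
  set F : ℝ := ((univ.filter fun x : Site d n => x ⟨0, hd⟩ = 0).card : ℝ) with hF
  have hFp : 0 < F := by
    rw [hF]
    exact_mod_cast LIP_fpos (d := d) hd
  have hIp : (0 : ℝ) < I.card := by exact_mod_cast hI.card_pos
  have hc : (I.image fun u => u + 1).card = I.card :=
    Finset.card_image_of_injective _ (add_left_injective 1)
  set S : ZMod n → ℝ := fun u => ∑ x ∈ univ.filter (fun x : Site d n => x ⟨0, hd⟩ = u), sg (σ x) with hS
  have hm1 : mI hd I σ = (∑ u ∈ I, S u) / (I.card * F) := by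
    unfold mI
    rw [LIP_sum hd I, LIP_card hd I]
  have hm2 : mI hd (I.image fun u => u + 1) σ = (∑ u ∈ I.image fun u => u + 1, S u) / (I.card * F) := by
    unfold mI
    rw [LIP_sum hd _, LIP_card hd _, hc]
  have hbd := LIP_bd I
  have hd1 : ∑ u ∈ (I.image fun u => u + 1), S u - ∑ u ∈ I, S u =
      ∑ u ∈ (I.image fun u => u + 1) \ I, S u - ∑ u ∈ I \ (I.image fun u => u + 1), S u := by
    have e1 := Finset.sum_sdiff_eq_sub (f := S) (Finset.inter_subset_left (s₁ := I.image fun u => u + 1) (s₂ := I))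
    have e2 := Finset.sum_sdiff_eq_sub (f := S) (Finset.inter_subset_left (s₁ := I) (s₂ := I.image fun u => u + 1))
    rw [Finset.sdiff_inter_self_left] at e1 e2
    rw [Finset.inter_comm I] at e2
    linarith
  have hb : ∀ T : Finset (ZMod n), |∑ u ∈ T, S u| ≤ T.card * F := by
    intro T
    refine (Finset.abs_sum_le_sum_abs _ _).trans ?_
    refine (Finset.sum_le_sum fun u _ => LIP_S hd u σ).trans ?_
    rw [Finset.sum_const, nsmul_eq_mul]
  rw [hm1, hm2, ← sub_div, hd1, abs_div, abs_of_pos (mul_pos hIp hFp)]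
  rw [div_le_div_iff₀ (mul_pos hIp hFp) hIp]
  have h1 : |∑ u ∈ (I.image fun u => u + 1) \ I, S u - ∑ u ∈ I \ (I.image fun u => u + 1), S u| ≤
      2 * (bdI I * F) := by
    have a1 := hb ((I.image fun u => u + 1) \ I)
    have a2 := hb (I \ (I.image fun u => u + 1))
    rw [hbd.1] at a1
    rw [hbd.2] at a2
    exact (abs_sub _ _).trans (by linarith)
  calc _ ≤ 2 * (bdI I * F) * I.card := mul_le_mul_of_nonneg_right h1 hIp.le
    _ = 2 * bdI I * (I.card * F) := by ring

lemma LIP_bdI_shift {n : ℕ} [NeZero n] (I : Finset (ZMod n)) (a : ZMod n) :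
    bdI (I.image fun u => u + a) = bdI I := by
  classical
  unfold bdI
  have e : ((I.image fun u => u + a).filter fun u => u + 1 ∉ I.image fun u => u + a) =
      (I.filter fun u => u + 1 ∉ I).image fun u => u + a := by
    ext v
    simp only [mem_filter, mem_image]
    constructor
    · rintro ⟨⟨u, hu, rfl⟩, hv⟩
      refine ⟨u, ⟨hu, fun h => hv ⟨u + 1, h, ?_⟩⟩, rfl⟩
      ring
    · rintro ⟨u, ⟨hu, hv⟩, rfl⟩
      refine ⟨⟨u, hu, rfl⟩, ?_⟩
      rintro ⟨w, hw, hw2⟩
      have : w = u + 1 := by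
        have h2 : w + a = (u + 1) + a := by rw [hw2]; ring
        exact add_right_cancel h2
      exact hv (this ▸ hw)
  rw [e, Finset.card_image_of_injective _ (add_left_injective a)]

theorem LIP : LIP_stmt := by
  intro d n _ hd I σ j hI
  classical
  have hIp : (0 : ℝ) < I.card := by exact_mod_cast hI.card_pos
  induction j with
  | zero =>
    have e : (I.image fun u => u + ((0 : ℕ) : ZMod n)) = I := by
      simp
    rw [e]
    simp
  | succ j ih =>
    have e : (I.image fun u => u + ((j + 1 : ℕ) : ZMod n)) =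
        (I.image fun u => u + (j : ZMod n)).image fun u => u + 1 := by
      rw [Finset.image_image]
      refine Finset.image_congr fun u _ => ?_
      simp only [Function.comp]
      push_cast
      ring
    have h1 := LIP_step (d := d) hd (I.image fun u => u + (j : ZMod n)) σ (hI.image _)
    rw [LIP_bdI_shift, Finset.card_image_of_injective _ (add_left_injective _)] at h1
    rw [e]
    have h2 : (2 * ((j + 1 : ℕ) : ℝ) * bdI I / I.card : ℝ) = 2 * bdI I / I.card + 2 * j * bdI I / I.card := by
      push_cast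
      ring
    rw [h2]
    exact (abs_sub_le _ _ _).trans (add_le_add h1 ih)

end CO
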