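import Pool.Agent.helper23.CO.SpecC
import Pool.Agent.helper18.CO.LIP

/-! # Project co (MP_7c3fb3_pr), row SLC: slabs -/

set_option autoImplicit false

open Finset Filter Topology

namespace CO

open CU

lemma SLC_cardN {d n : ℕ} [NeZero n] (hd : 0 < d) (I : Finset (ZMod n)) :
    (slab (d := d) hd I).card = I.card * (univ.filter fun x : Site d n => x ⟨0, hd⟩ = 0).card := by
  have h := LIP_card (d := d) hd I
  exact_mod_cast h

lemma SLC_F {d n : ℕ} [NeZero n] (hd : 0 < d) :
    (univ.filter fun x : Site d n => x ⟨0, hd⟩ = 0).card = n ^ (d - 1) := by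
  have h := SLC_cardN (d := d) hd (univ : Finset (ZMod n))
  have e : (slab (d := d) hd (univ : Finset (ZMod n))) = univ := by
    ext x
    simp [slab]
  rw [e, Finset.card_univ, Finset.card_univ, ZMod.card] at h
  have h2 : Fintype.card (Site d n) = n ^ d := by
    simp only [Site, Fintype.card_pi, ZMod.card, Finset.prod_const, Finset.card_univ, Fintype.card_fin]
  rw [h2] at h
  have hn : 0 < n := Nat.pos_of_ne_zero (NeZero.ne n)
  have h3 : n * n ^ (d - 1) = n ^ d := by
    rw [← pow_succ']
    congr 1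
    omega
  exact (Nat.eq_of_mul_eq_mul_left hn (h3.trans h)).symm

theorem SLC : SLC_stmt := by
  intro d n _ hd
  classical
  refine ⟨fun I => ?_, fun I => ?_, fun P J hJ σ => ?_⟩
  · rw [SLC_cardN hd I, SLC_F hd]
  · ext x
    simp [slab]
  · have h1 : ((P.biUnion J).card : ℝ) * (n : ℝ) ^ (d - 1) = ((slab (d := d) hd (P.biUnion J)).card : ℝ) := by
      rw [SLC_cardN hd, SLC_F hd]
      push_cast
      ring
    have h2 : ∑ x ∈ slab (d := d) hd (P.biUnion J), sg (σ x) = ∑ p ∈ P, ∑ x ∈ slab hd (J p), sg (σ x) := by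
      rw [LIP_sum hd, Finset.sum_biUnion (fun p hp p' hp' hne => hJ p hp p' hp' hne)]
      refine Finset.sum_congr rfl fun p _ => ?_
      rw [LIP_sum hd (J p)]
    rw [h1, ← h2]
    unfold mI
    rcases Finset.eq_empty_or_nonempty (slab (d := d) hd (P.biUnion J)) with he | he
    · rw [he]
      simp
    · have : ((slab (d := d) hd (P.biUnion J)).card : ℝ) ≠ 0 := by
        exact_mod_cast he.card_pos.ne'
      rw [div_mul_cancel₀ _ this]

end CO
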